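import Pool.Agent.Helper91.ZFA.Final

/-!
MP_fc22d4_lc: there is a model of ZFA with a Cantor completely metrizable K-Loeb space which has a
cuf base and is not Loeb.
-/

set_option autoImplicit false

namespace Pool.Agent.Results.MP_fc22d4_lc.ZFAExample

open Pool.Agent.Helper91.ZFA

/-- There is a well-founded model of ZFA which contains a topological space that is Cantor
completely metrizable, is K-Loeb and has a cuf base, but is not Loeb. -/
theorem result : ∃ (N : ZFAModel) (X τ : N.M), N.IsTopology X τ ∧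
    N.IsCantorCompletelyMetrizable X τ ∧ N.IsKLoeb X τ ∧
    (∃ B, N.IsBase τ B ∧ N.IsCuf B) ∧ ¬ N.IsLoeb X τ :=
  ⟨permModel Ex.G, Ex.X0, Ex.T0, isTopology_tau Ex.unif,
    ⟨dN Ex.rel, isMetric_dN Ex.unif, induces_dN Ex.unif, Ex.cantorComplete⟩,
    Ex.kLoeb, Ex.exists_cufBase, Ex.not_loeb⟩

end Pool.Agent.Results.MP_fc22d4_lc.ZFAExample
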